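import Pool.Agent.Q42.UT.All

/-!
# The wired uniform spanning tree of a recurrent random graph is a graph factor of i.i.d. labels

Full positive answer of Question 1 of MP_688e31_pr; unimodularity is not needed.

Definitions. The set of simple graphs with the countable vertex set `V` carries the σ-algebra
generated by the adjacency relations (`Pool.Agent.Q42.UT.gms`). The remaining definitions are those of
`Pool.Agent.TH968.UST.Defs`. `Recurrent g`: simple random walk on `g` returns to its starting vertex
almost surely (`hit g o n v` is the probability to visit `o` before or at time `n` for the walk
started at `v`, `avg g f v` the average of `f` over the neighbours of `v`). `wired B` identifies all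
vertices outside the finite set `B` into one vertex, `touch g B` is the set of the edges of `g` with
an endpoint in `B` (all other edges become loops), `IsSpan r E T` says that `T` is a spanning tree
of the edge set `E` after the identification of `r`-equivalent vertices, and `ustProb r E S A` is the
probability of `T ∩ S = A` for the uniform spanning tree `T`.

Proof. (1) Let `ν_x` be the average of the laws of simple random walk started at `x` at the times
`0, ..., N - 1`. A race: `x` is assigned to the `z` with the largest `U_z ^ (1 / ν_x(z))`; it is
`z` with probability `ν_x(z)`. Neighbours are assigned to different vertices with probability at most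
`‖ν_x - ν_y‖₁`, which tends to zero as `N → ∞` because of recurrence (the walk from `y` is
a delayed walk from `x`). The expected number of vertices assigned to `z` is
`∑_x ν_x(z) ≤ deg z` by reversibility (remark of helper171; one can use mass transport instead).
So for suitable `N_j` the edges whose endpoints are assigned to the same vertex in all stages
`j ≥ n` form an increasing sequence of graphs `K_n` with finite components and union `G`, and they
are factors of the labels. (2) By Rayleigh monotonicity and the theorem of Feder and Mihail the
uniform spanning tree of a component of `K_(n+1)`, restricted to `K_n`, is stochastically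
dominated by the uniform spanning forest of the part of `K_n` in this component. By Hall's theorem
there is a monotone coupling, and it can be chosen as a function of the isomorphism type of the
component ordered by the labels, of the forest of `K_n` and of one fresh label. This gives a
decreasing sequence of trees, which are factors of the labels; the limit has the law of the free, and
(by recurrence) of the wired uniform spanning tree.
-/

set_option autoImplicit false

namespace Pool.Agent.Results.MP_688e31_pr.RecurrentTreeIsFactor

open MeasureTheory Filter Topology
open scoped unitInterval
open Pool.Agent.TH968.UST

/-- Let `V` be a finite or countable set with at least two elements and `G` a random graph with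
vertex set `V`, defined on a probability space `(Ω, P)`, which is almost surely connected, locally
finite and recurrent. There is a map `Φ` which assigns to a graph `g` with vertex set `V` and labels
`u : V → [0, 1]` a set of edges `Φ g u`, such that

* `Φ` is measurable;
* `Φ` is equivariant under all bijections `s` of `V`: an edge `e` is in `Φ (s^* g) (u ∘ s)` if and
  only if `s e` is in `Φ g u`, where `x`, `y` are adjacent in `s^* g = g.comap s` if and only if
  `s x`, `s y` are adjacent in `g`;
* for almost every realisation `g = G ω` and i.i.d. uniform labels `u` the law of `Φ g u` is that
  of the wired uniform spanning tree of `g`: for every increasing sequence `B 0 ⊆ B 1 ⊆ ...` of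
  finite sets with union `V` and all finite sets `S`, `A` the probability of `T ∩ S = A` for the
  uniform spanning tree `T` of `g` with the outside of `B n` identified to one vertex converges,
  as `n → ∞`, to the probability of `Φ g u ∩ S = A`. -/
theorem result (V : Type) [Countable V] [Nontrivial V] (Ω : Type) [MeasurableSpace Ω]
    (P : Measure Ω) [IsProbabilityMeasure P] (G : Ω → SimpleGraph V)
    (hG : ∀ x y, MeasurableSet {ω | (G ω).Adj x y})
    (hP : ∀ᵐ ω ∂P, (G ω).Connected ∧ (∀ v, {w | (G ω).Adj v w}.Finite) ∧ Recurrent (G ω)) :
    ∃ Φ : SimpleGraph V → (V → I) → Set (Sym2 V),
      (∀ e, MeasurableSet {q : SimpleGraph V × (V → I) | e ∈ Φ q.1 q.2}) ∧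
      (∀ (s : Equiv.Perm V) (g : SimpleGraph V) (u : V → I) (e : Sym2 V),
        e ∈ Φ (g.comap s) (fun v => u (s v)) ↔ Sym2.map s e ∈ Φ g u) ∧
      ∀ᵐ ω ∂P, ∀ B : ℕ → Finset V, Monotone B → (∀ v, ∃ n, v ∈ B n) →
        ∀ S A : Finset (Sym2 V),
          Tendsto (fun n => ustProb (wired (B n)) (touch (G ω) (B n)) (S : Set (Sym2 V))
            (A : Set (Sym2 V))) atTop
            (𝓝 ((Measure.infinitePi fun _ : V => (volume : Measure I)).real
              {u | Φ (G ω) u ∩ S = A})) :=
  Pool.Agent.Q42.UT.final V Ω P G
    (Pool.Agent.Q42.UT.measurable_graph hG) hP

end Pool.Agent.Results.MP_688e31_pr.RecurrentTreeIsFactor
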